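import Pool.Agent.Helper867_Rae.Base2
import Pool.Agent.Helper867_Rae.Stmts
import Pool.Agent.Helper867_Rae.Step

set_option autoImplicit false

/-! (C1) from Lemma Z and Lemma B. -/

namespace Pool.Agent.Helper699_Rae

open Pool.Agent.TH62.PL Pool.Agent.Helper867_Rae
open scoped commutatorElement

section basic
variable {X : Type} [Group X]

/-- `gKg⁻¹` -/
def cj (K : Subgroup X) (g : X) : Subgroup X := K.comap (MulAut.conj g⁻¹).toMonoidHom

lemma mem_cj {K : Subgroup X} {g x : X} : x ∈ cj K g ↔ g⁻¹ * x * g ∈ K := by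
  have : x ∈ cj K g ↔ g⁻¹ * x * g⁻¹⁻¹ ∈ K := Iff.rfl
  rw [this, inv_inv]

/-- `P ∩ gKg⁻¹` -/
def J (P K : Subgroup X) (g : X) : Subgroup X := P ⊓ cj K g

lemma mem_J {P K : Subgroup X} {g x : X} : x ∈ J P K g ↔ x ∈ P ∧ g⁻¹ * x * g ∈ K := by
  rw [J, Subgroup.mem_inf, mem_cj]

lemma Sm_mono_c {M N : Subgroup X} {y : X} {c c' : ℕ} (h : Sm M N y c) (hc : c ≤ c') :
    Sm M N y c' := by
  obtain ⟨C, h1, h2, h3⟩ := h
  exact ⟨C, h1, h2, h3.trans hc⟩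

lemma pigeon {ι κ : Type} [Finite ι] [Finite κ] [Nonempty κ] (f : ι → κ) :
    ∃ k, Nat.card ι ≤ Nat.card {i // f i = k} * Nat.card κ := by
  classical
  have := Fintype.ofFinite ι
  have := Fintype.ofFinite κ
  by_contra hcon
  push Not at hcon
  have h1 : ∑ k : κ, (Nat.card {i // f i = k} * Nat.card κ) < ∑ _k : κ, Nat.card ι :=
    Finset.sum_lt_sum_of_nonempty Finset.univ_nonempty fun k _ => hcon k
  have h2 : ∑ k : κ, Nat.card {i // f i = k} = Nat.card ι := by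
    rw [← Nat.card_congr (Equiv.sigmaFiberEquiv f), Nat.card_sigma]
  rw [← Finset.sum_mul, h2, Finset.sum_const, Finset.card_univ, smul_eq_mul,
    ← Nat.card_eq_fintype_card, mul_comm] at h1
  exact lt_irrefl _ h1

/-- modulo `N`, conjugating the acting element by an element of `N'` does nothing -/
lemma act_eq {N N' : Subgroup X} (hN : N.Normal) (hN' : N'.Normal)
    (hab : ∀ x ∈ N', ∀ y ∈ N', x * y * x⁻¹ * y⁻¹ ∈ N) {n y m : X} (hn : n ∈ N') (hm : m ∈ N') :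
    (n * y * n⁻¹) * m * (n * y * n⁻¹)⁻¹ * (y * m * y⁻¹)⁻¹ ∈ N := by
  have h1 : n⁻¹ * m * n⁻¹⁻¹ * m⁻¹ ∈ N := hab _ (N'.inv_mem hn) _ hm
  have h2 := hN.conj_mem _ h1 (n * y)
  have h3 := hab n hn (y * m * y⁻¹) (hN'.conj_mem m hm y)
  have e : (n * y * n⁻¹) * m * (n * y * n⁻¹)⁻¹ * (y * m * y⁻¹)⁻¹ =
      (n * y * (n⁻¹ * m * n⁻¹⁻¹ * m⁻¹) * (n * y)⁻¹) *
        (n * (y * m * y⁻¹) * n⁻¹ * (y * m * y⁻¹)⁻¹) := by group
  rw [e]
  exact N.mul_mem h2 h3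

end basic

section stepA
variable {X : Type} [Group X] [Finite X]

lemma stepA (hZ : S_Z) (p l c0 s : ℕ) [hp : Fact p.Prime] (hBd : Bd p l c0) (hs : 1 ≤ s)
    (hX : Group.IsSolvable X) (P K : Subgroup X) (hP : UQ p P) (hcard : Nat.card P ≤ p ^ (l + 1))
    (H : ∀ g, p ^ s ≤ Nat.card (J P K g)) (K1 : Subgroup X) (hK1 : K ≤ K1) (g : X)
    (hg : Nat.card (J P K1 g) ≤ p ^ s) :
    LM p (p ^ (l + 1) * (c0 + 1)) ((cj K g).subgroupOf K1.normalCore) := by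
  have hcore : ∀ c ∈ K1.normalCore, ∀ b : X, b * c * b⁻¹ ∈ K1 := fun c hc => hc
  have key : ∀ c ∈ K1.normalCore, ∀ x ∈ J P K1 g, c⁻¹ * x * c ∈ cj K g := by
    intro c hc x hx
    have h0 := hcore c hc g⁻¹
    have hle : J P K (c * g) ≤ J P K1 g := by
      intro y hy
      rw [mem_J] at hy ⊢
      refine ⟨hy.1, ?_⟩
      have h1 := hK1 hy.2
      have e : g⁻¹ * y * g = (g⁻¹ * c * g⁻¹⁻¹) * ((c * g)⁻¹ * y * (c * g)) *
          (g⁻¹ * c * g⁻¹⁻¹)⁻¹ := by group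
      rw [e]
      exact K1.mul_mem (K1.mul_mem h0 h1) (K1.inv_mem h0)
    have heq : J P K (c * g) = J P K1 g :=
      Subgroup.eq_of_le_of_card_ge hle (hg.trans (H _))
    rw [← heq, mem_J] at hx
    rw [mem_cj]
    have e : g⁻¹ * (c⁻¹ * x * c) * g = (c * g)⁻¹ * x * (c * g) := by group
    rw [e]; exact hx.2
  have hne : J P K1 g ≠ ⊥ := by
    intro he
    have h1 : p ^ s ≤ Nat.card (J P K g) := H g
    have h2 : J P K g ≤ J P K1 g := by
      intro y hy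
      rw [mem_J] at hy ⊢
      exact ⟨hy.1, hK1 hy.2⟩
    rw [he, le_bot_iff] at h2
    rw [h2, Subgroup.card_bot] at h1
    have h3 : 1 < p ^ s := Nat.one_lt_pow (by omega) hp.out.one_lt
    omega
  have hle : J P K1 g ≤ P := inf_le_left
  have h := hZ p l c0 hBd X hX P K1.normalCore (J P K1 g) hP hcard inferInstance hle hne
  refine h.mono ?_
  apply Subgroup.comap_mono
  rw [Subgroup.commutator_le]
  intro c hc x hx
  have h1 := key c⁻¹ (Subgroup.inv_mem _ hc) x hx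
  have h2 := key 1 (Subgroup.one_mem _) x hx
  rw [inv_inv] at h1
  rw [inv_one, one_mul, mul_one] at h2
  rw [commutatorElement_def]
  exact (cj K g).mul_mem h1 ((cj K g).inv_mem h2)

end stepA

section stepC
variable {X : Type} [Group X] [Finite X]

lemma stepC {P K1 N N' : Subgroup X} (hN : N.Normal) (hN' : N'.Normal) (hNN' : N ≤ N')
    (hNK : N ≤ K1) (hab : ∀ x ∈ N', ∀ y ∈ N', x * y * x⁻¹ * y⁻¹ ∈ N)
    (H : ∀ n : X, ∃ x ∈ P, x ≠ 1 ∧ n⁻¹ * x * n ∈ K1) :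
    ∃ x ∈ P, x ≠ 1 ∧ (∃ n0 ∈ N', n0⁻¹ * x * n0 ∈ K1) ∧ Sm N' (N' ⊓ K1) x (Nat.card P) := by
  classical
  have hM0 : N ≤ N' ⊓ K1 := le_inf hNN' hNK
  choose f hfP hf1 hfK using H
  obtain ⟨x, hx⟩ := pigeon (ι := N') (κ := P) fun n => ⟨f n, hfP n⟩
  have hpos : 0 < Nat.card {i : N' // (⟨f i, hfP i⟩ : P) = x} := by
    rcases Nat.eq_zero_or_pos (Nat.card {i : N' // (⟨f i, hfP i⟩ : P) = x}) with h0 | h0
    · rw [h0, zero_mul] at hx
      have : 0 < Nat.card N' := Nat.card_pos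
      omega
    · exact h0
  obtain ⟨⟨n0, hn0⟩⟩ := (Nat.card_pos_iff.1 hpos).1
  have hfx : ∀ n : {i : N' // (⟨f i, hfP i⟩ : P) = x}, f (n.1 : X) = x := by
    rintro ⟨n, hn⟩
    exact congrArg Subtype.val hn
  have hxn0 : f (n0 : X) = x := hfx ⟨n0, hn0⟩
  refine ⟨x, x.2, ?_, ⟨n0, n0.2, ?_⟩, ?_⟩
  · rw [← hxn0]; exact hf1 _
  · rw [← hxn0]; exact hfK _
  -- the subgroup
  set M0 := N' ⊓ K1 with hM0def
  have hinv : Inv N' M0 := by
    intro n hn m hm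
    have h1 := hM0 (hab n hn m hm.1)
    have e : n * m * n⁻¹ = (n * m * n⁻¹ * m⁻¹) * m := by group
    rw [e]
    exact M0.mul_mem h1 hm
  -- `x` normalises `M0`
  have hxM0 : ∀ a ∈ M0, (x : X) * a * (x : X)⁻¹ ∈ M0 := by
    intro a ha
    have hy : (n0 : X)⁻¹ * x * n0 ∈ K1 := by rw [← hxn0]; exact hfK _
    set y := (n0 : X)⁻¹ * x * n0 with hydef
    have h1 := act_eq hN hN' hab (n := (n0 : X)) (y := y) (m := a) n0.2 ha.1
    have e1 : (n0 : X) * y * (n0 : X)⁻¹ = x := by rw [hydef]; group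
    rw [e1] at h1
    have h2 : y * a * y⁻¹ ∈ M0 := ⟨hN'.conj_mem a ha.1 y, K1.mul_mem (K1.mul_mem hy ha.2)
      (K1.inv_mem hy)⟩
    have e2 : (x : X) * a * (x : X)⁻¹ = ((x : X) * a * (x : X)⁻¹ * (y * a * y⁻¹)⁻¹) *
        (y * a * y⁻¹) := by group
    rw [e2]
    exact M0.mul_mem (hM0 h1) h2
  let C : Subgroup X :=
    { carrier := {m | m ∈ N' ∧ (x : X) * m * (x : X)⁻¹ * m⁻¹ ∈ M0}
      one_mem' := ⟨N'.one_mem, by simp⟩
      mul_mem' := by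
        rintro a b ⟨ha, ha'⟩ ⟨hb, hb'⟩
        refine ⟨N'.mul_mem ha hb, ?_⟩
        have e : (x : X) * (a * b) * (x : X)⁻¹ * (a * b)⁻¹ =
            ((x : X) * a * (x : X)⁻¹ * a⁻¹) * (a * ((x : X) * b * (x : X)⁻¹ * b⁻¹) * a⁻¹) := by
          group
        rw [e]
        exact M0.mul_mem ha' (hinv a ha _ hb')
      inv_mem' := by
        rintro a ⟨ha, ha'⟩
        refine ⟨N'.inv_mem ha, ?_⟩
        have e : (x : X) * a⁻¹ * (x : X)⁻¹ * a⁻¹⁻¹ =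
            a⁻¹ * (a * ((x : X) * a * (x : X)⁻¹)⁻¹) * a⁻¹⁻¹ := by group
        rw [e]
        apply hinv _ (N'.inv_mem ha)
        have h2 := M0.inv_mem ha'
        have e2 : a * ((x : X) * a * (x : X)⁻¹)⁻¹ = ((x : X) * a * (x : X)⁻¹ * a⁻¹)⁻¹ := by group
        rw [e2]; exact h2 }
  refine ⟨C, fun m hm => hm.1, fun m hm => hm.2, ?_⟩
  -- counting
  have hcardC : Nat.card {i : N' // (⟨f i, hfP i⟩ : P) = x} ≤ Nat.card C := by
    refine Nat.card_le_card_of_injective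
      (fun n : {i : N' // (⟨f i, hfP i⟩ : P) = x} => (⟨(n0 : X)⁻¹ * (n.1 : X), ?_⟩ : C)) ?_
    · have hm : (n0 : X)⁻¹ * (n.1 : X) ∈ N' := N'.mul_mem (N'.inv_mem n0.2) n.1.2
      refine ⟨hm, ?_⟩
      set m := (n0 : X)⁻¹ * (n.1 : X) with hmdef
      have hy : (n0 : X)⁻¹ * x * n0 ∈ K1 := by rw [← hxn0]; exact hfK _
      set y := (n0 : X)⁻¹ * x * n0 with hydef
      have hy' : m⁻¹ * y * m ∈ K1 := by
        have e : m⁻¹ * y * m = (n.1 : X)⁻¹ * x * (n.1 : X) := by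
          rw [hmdef, hydef]; group
        rw [e, ← hfx n]
        exact hfK _
      have h1 := act_eq hN hN' hab (n := (n0 : X)) (y := y) (m := m) n0.2 hm
      have e1 : (n0 : X) * y * (n0 : X)⁻¹ = x := by rw [hydef]; group
      rw [e1] at h1
      have h2 : m⁻¹ * (y * m * y⁻¹) ∈ M0 := by
        refine ⟨N'.mul_mem (N'.inv_mem hm) (hN'.conj_mem m hm y), ?_⟩
        have e : m⁻¹ * (y * m * y⁻¹) = (m⁻¹ * y * m) * y⁻¹ := by group
        rw [e]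
        exact K1.mul_mem hy' (K1.inv_mem hy)
      have h3 := hinv m hm _ h2
      have e3 : (x : X) * m * (x : X)⁻¹ * m⁻¹ =
          ((x : X) * m * (x : X)⁻¹ * (y * m * y⁻¹)⁻¹) * (m * (m⁻¹ * (y * m * y⁻¹)) * m⁻¹) := by
        group
      rw [e3]
      exact M0.mul_mem (hM0 h1) h3
    · intro a b hab'
      have h1 : (n0 : X)⁻¹ * (a.1 : X) = (n0 : X)⁻¹ * (b.1 : X) := congrArg Subtype.val hab'
      exact Subtype.ext (Subtype.ext (mul_left_cancel h1))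
  have hCN : C ≤ N' := fun m hm => hm.1
  have h4 : Nat.card C * C.relIndex N' = Nat.card N' := by
    have h5 := (C.subgroupOf N').card_mul_index
    have h6 : Nat.card (C.subgroupOf N') = Nat.card C :=
      Nat.card_congr (Subgroup.subgroupOfEquivOfLe hCN).toEquiv
    rw [h6] at h5
    exact h5
  have h5 : Nat.card C * C.relIndex N' ≤ Nat.card C * Nat.card P := by
    rw [h4]
    exact hx.trans (Nat.mul_le_mul_right _ hcardC)
  exact Nat.le_of_mul_le_mul_left h5 Nat.card_pos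

end stepC

section stepD
variable {X : Type} [Group X] [Finite X]

omit [Finite X] in
lemma Sm_conj {M N H : Subgroup X} (hM : Inv H M) (hN : Inv H N) {y k : X} (hk : k ∈ H) {c : ℕ}
    (h : Sm M N y c) : Sm M N (k * y * k⁻¹) c := by
  obtain ⟨C, h1, h2, h3⟩ := h
  have hMk : M.map (MulAut.conj k).toMonoidHom = M := by
    apply le_antisymm
    · rintro _ ⟨m, hm, rfl⟩
      exact hM k hk m hm
    · intro m hm
      refine ⟨k⁻¹ * m * k, ?_, ?_⟩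
      · have := hM k⁻¹ (H.inv_mem hk) m hm
        rwa [inv_inv] at this
      · change k * (k⁻¹ * m * k) * k⁻¹ = m
        group
  refine ⟨C.map (MulAut.conj k).toMonoidHom, ?_, ?_, ?_⟩
  · rw [← hMk]
    exact Subgroup.map_mono h1
  · rintro _ ⟨m, hm, rfl⟩
    have h4 := hN k hk _ (h2 m hm)
    change k * y * k⁻¹ * (k * m * k⁻¹) * (k * y * k⁻¹)⁻¹ * (k * m * k⁻¹)⁻¹ ∈ N
    have e : k * y * k⁻¹ * (k * m * k⁻¹) * (k * y * k⁻¹)⁻¹ * (k * m * k⁻¹)⁻¹ =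
        k * (y * m * y⁻¹ * m⁻¹) * k⁻¹ := by group
    rw [e]; exact h4
  · have h5 : (C.map (MulAut.conj k).toMonoidHom).relIndex (M.map (MulAut.conj k).toMonoidHom) =
        C.relIndex M :=
      Subgroup.relIndex_map_map_of_injective C M (MulAut.conj k).injective
    rw [hMk] at h5
    rw [h5]; exact h3

lemma stepD (hZ : S_Z) (p l c0 b : ℕ) [hp : Fact p.Prime] (hBd : Bd p l c0)
    (hB : ∀ (X : Type) [Group X] [Finite X], Group.IsSolvable X →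
      ∀ (r : ℕ) (H M N : Subgroup X), r.Prime → N ≤ M → Inv H M → Inv H N →
      (∀ x ∈ M, ∀ y ∈ M, x * y * x⁻¹ * y⁻¹ ∈ N) → (∀ x ∈ M, x ^ r ∈ N) →
      ∀ Y : Subgroup X, Y = Subgroup.closure {y : X | y ∈ H ∧ Sm M N y (p ^ (l + 1))} →
      ∀ W : Subgroup Y, (∀ y : Y, (∀ m ∈ M, (y : X) * m * (y : X)⁻¹ * m⁻¹ ∈ N) → y ∈ W) →
        LM p b W)
    (hX : Group.IsSolvable X) (P : Subgroup X) (hP : UQ p P) (hcard : Nat.card P ≤ p ^ (l + 1))
    (r : ℕ) (hr : r.Prime) (K2 M M0 : Subgroup X) (hM : M.Normal) (hM0 : M0 ≤ M)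
    (hinv : Inv K2 M0) (hab : ∀ x ∈ M, ∀ y ∈ M, x * y * x⁻¹ * y⁻¹ ∈ M0)
    (hpow : ∀ x ∈ M, x ^ r ∈ M0) (x : X) (hxP : x ∈ P) (hx1 : x ≠ 1) (hxK2 : x ∈ K2)
    (hxS : Sm M M0 x (p ^ (l + 1))) :
    LM p (b + p ^ (l + 1) * (c0 + 1)) ((CS M M0 hM hM0).subgroupOf K2.normalCore) := by
  set Y : Subgroup X := Subgroup.closure {y : X | y ∈ K2 ∧ Sm M M0 y (p ^ (l + 1))} with hY
  have hMi : Inv K2 M := Inv.of_normal _ hM
  have hYinv : Inv K2 Y := by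
    intro k hk y hy
    have h1 : Y.map (MulAut.conj k).toMonoidHom ≤ Y := by
      rw [hY, MonoidHom.map_closure, Subgroup.closure_le]
      rintro _ ⟨z, ⟨hz, hz'⟩, rfl⟩
      apply Subgroup.subset_closure
      exact ⟨K2.mul_mem (K2.mul_mem hk hz) (K2.inv_mem hk), Sm_conj hMi hinv hk hz'⟩
    exact h1 ⟨y, hy, rfl⟩
  have hxY : x ∈ Y := Subgroup.subset_closure ⟨hxK2, hxS⟩
  have hcore : K2.normalCore ≤ K2 := Subgroup.normalCore_le _
  -- Lemma Z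
  have h1 : LM p (p ^ (l + 1) * (c0 + 1)) (Y.subgroupOf K2.normalCore) := by
    have h := hZ p l c0 hBd X hX P K2.normalCore (Subgroup.zpowers x) hP hcard inferInstance
      (by rwa [Subgroup.zpowers_le]) (by rwa [Ne, Subgroup.zpowers_eq_bot])
    refine h.mono ?_
    apply Subgroup.comap_mono
    rw [Subgroup.commutator_le]
    intro c hc z hz
    have hzY : z ∈ Y := by
      have : Subgroup.zpowers x ≤ Y := by rwa [Subgroup.zpowers_le]
      exact this hz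
    rw [commutatorElement_def]
    exact Y.mul_mem (hYinv c (hcore hc) z hzY) (Y.inv_mem hzY)
  have hYn : (Y.subgroupOf K2.normalCore).Normal := by
    refine ⟨fun y hy g => ?_⟩
    exact hYinv g (hcore g.2) y hy
  -- Lemma B
  have h2 := hB X hX r K2 M M0 hr hM0 hMi hinv hab hpow Y rfl
    ((CS M M0 hM hM0).subgroupOf Y) (fun y hy => hy)
  let f : (Y.subgroupOf K2.normalCore) →* Y :=
    (K2.normalCore.subtype.comp (Y.subgroupOf K2.normalCore).subtype).codRestrict Y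
      (fun z => z.2)
  have h3 := h2.comap f
  have h4 : LM p (b + p ^ (l + 1) * (c0 + 1))
      (((CS M M0 hM hM0).subgroupOf K2.normalCore) ⊓ (Y.subgroupOf K2.normalCore)) := by
    refine LM.ext hYn ?_ h1
    refine h3.mono ?_
    intro z hz
    exact hz
  exact h4.mono inf_le_left

end stepD

section stepE
variable {X : Type} [Group X] [Finite X]

omit [Finite X] in
/-- [Δ,Δ] ≤ K1 -/
lemma stepE {K1 N' Δ : Subgroup X} (hN' : N'.Normal) (hN'Δ : N' ≤ Δ)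
    (hΔK : Δ ≤ K1 ⊔ N')
    (hc : ∀ u ∈ Δ, ∀ n ∈ N', u * n * u⁻¹ * n⁻¹ ∈ K1.normalCore) :
    ∀ u ∈ Δ, ∀ v ∈ Δ, u * v * u⁻¹ * v⁻¹ ∈ K1 := by
  have hcore : K1.normalCore ≤ K1 := Subgroup.normalCore_le _
  have hcn : K1.normalCore.Normal := inferInstance
  have hdec : ∀ u ∈ Δ, ∃ a ∈ K1, ∃ n ∈ N', a ∈ Δ ∧ u = a * n := by
    intro u hu
    obtain ⟨a, ha, n, hn, rfl⟩ := Subgroup.mem_sup_of_normal_right.1 (hΔK hu)
    refine ⟨a, ha, n, hn, ?_, rfl⟩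
    have := Δ.mul_mem hu (Δ.inv_mem (hN'Δ hn))
    rwa [mul_inv_cancel_right] at this
  intro u hu v hv
  obtain ⟨a, ha, n, hn, haΔ, rfl⟩ := hdec u hu
  obtain ⟨b, hb, m, hm, hbΔ, rfl⟩ := hdec v hv
  set v := b * m with hvdef
  have h1 : n * v * n⁻¹ * v⁻¹ ∈ K1.normalCore := by
    have := Subgroup.inv_mem _ (hc v hv n hn)
    have e : n * v * n⁻¹ * v⁻¹ = (v * n * v⁻¹ * n⁻¹)⁻¹ := by group
    rw [e]; exact this
  have h2 := hcore (hcn.conj_mem _ h1 a)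
  have h3 := hcore (hcn.conj_mem _ (hc a haΔ m hm) b)
  have e : a * n * v * (a * n)⁻¹ * v⁻¹ = (a * (n * v * n⁻¹ * v⁻¹) * a⁻¹) *
      ((a * b * a⁻¹ * b⁻¹) * (b * (a * m * a⁻¹ * m⁻¹) * b⁻¹)) := by
    rw [hvdef]; group
  rw [e]
  exact K1.mul_mem h2 (K1.mul_mem
    (K1.mul_mem (K1.mul_mem (K1.mul_mem ha hb) (K1.inv_mem ha)) (K1.inv_mem hb)) h3)

end stepE

/-- the induction step -/
lemma step (hZ : S_Z) (p l c0 b ds s : ℕ) [hp : Fact p.Prime] (hBd : Bd p l c0)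
    (hB : ∀ (X : Type) [Group X] [Finite X], Group.IsSolvable X →
      ∀ (r : ℕ) (H M N : Subgroup X), r.Prime → N ≤ M → Inv H M → Inv H N →
      (∀ x ∈ M, ∀ y ∈ M, x * y * x⁻¹ * y⁻¹ ∈ N) → (∀ x ∈ M, x ^ r ∈ N) →
      ∀ Y : Subgroup X, Y = Subgroup.closure {y : X | y ∈ H ∧ Sm M N y (p ^ (l + 1))} →
      ∀ W : Subgroup Y, (∀ y : Y, (∀ m ∈ M, (y : X) * m * (y : X)⁻¹ * m⁻¹ ∈ N) → y ∈ W) →
        LM p b W)
    (hs : 1 ≤ s) (X : Type) [Group X] [Finite X]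
    (hX : Group.IsSolvable X) (P : Subgroup X) (hP : UQ p P) (hcard : Nat.card P ≤ p ^ (l + 1))
    (IH : ∀ K : Subgroup X, (∀ g, p ^ (s + 1) ≤ Nat.card (J P K g)) → LM p ds K)
    (K : Subgroup X) (H : ∀ g, p ^ s ≤ Nat.card (J P K g)) :
    LM p (p ^ (l + 1) * (c0 + 1) + (1 + ((b + p ^ (l + 1) * (c0 + 1)) + ds))) K := by
  classical
  have hpow : ∀ (K' : Subgroup X) (g : X), ¬ Nat.card (J P K' g) ≤ p ^ s →
      p ^ (s + 1) ≤ Nat.card (J P K' g) := by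
    intro K' g hne
    have hle : J P K' g ≤ P := inf_le_left
    obtain ⟨n, hn⟩ := (hP.1.to_le hle).exists_card_eq
    rw [hn] at hne ⊢
    have h1 : s < n := (Nat.pow_lt_pow_iff_right hp.out.one_lt).1 (not_le.1 hne)
    exact Nat.pow_le_pow_right hp.out.pos h1
  by_cases hgood : ∃ g, Nat.card (J P (K ⊔ ⊥) g) ≤ p ^ s
  swap
  · push Not at hgood
    have h1 := IH (K ⊔ ⊥) fun g => hpow _ g (not_le.2 (hgood g))
    rw [sup_bot_eq] at h1
    exact h1.mono_n (by omega)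
  obtain ⟨N, ⟨hN, g, hg⟩, hNmax⟩ := Set.Finite.exists_maximal
    (Set.toFinite {N : Subgroup X | N.Normal ∧ ∃ g, Nat.card (J P (K ⊔ N) g) ≤ p ^ s})
    ⟨⊥, inferInstance, hgood⟩
  have ha := stepA hZ p l c0 s hBd hs hX P K hP hcard H (K ⊔ N) le_sup_left g hg
  -- it is enough to have `LM` for the core
  suffices hsuf : LM p (1 + ((b + p ^ (l + 1) * (c0 + 1)) + ds)) (K ⊔ N).normalCore by
    have h1 := LM.ext inferInstance ha hsuf
    have h2 := h1.mono inf_le_left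
    exact h2.conj g (N' := K) fun x hx => mem_cj.1 hx
  by_cases htop : K ⊔ N = ⊤
  · rw [htop]
    have : (⊤ : Subgroup X).normalCore = ⊤ := Subgroup.normalCore_eq_self ⊤
    rw [this]
    exact LM.top _
  have hNtop : N ≠ ⊤ := by
    rintro rfl
    exact htop (sup_top_eq _)
  obtain ⟨r, N', hr, hN', hNN', hNne, hab, hrp⟩ := exists_chief hX N hN hNtop
  have hN'bad : ∀ g, p ^ (s + 1) ≤ Nat.card (J P (K ⊔ N') g) := by
    intro g'
    apply hpow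
    intro hle
    exact hNne (le_antisymm hNN' (hNmax ⟨hN', g', hle⟩ hNN'))
  have hK2 := IH (K ⊔ N') hN'bad
  have hC' := hK2.normalCore
  have hK12 : K ⊔ N ≤ K ⊔ N' := sup_le_sup_left hNN' K
  have hNK1 : N ≤ K ⊔ N := le_sup_right
  have hM0 : N' ⊓ (K ⊔ N) ≤ N' := inf_le_left
  have hNM0 : N ≤ N' ⊓ (K ⊔ N) := le_inf hNN' hNK1
  have hHx : ∀ n : X, ∃ x ∈ P, x ≠ 1 ∧ n⁻¹ * x * n ∈ K ⊔ N := by
    intro n
    have h1 : 1 < Nat.card (J P K n) :=
      lt_of_lt_of_le (Nat.one_lt_pow (by omega) hp.out.one_lt) (H n)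
    have h2 : J P K n ≠ ⊥ := by
      intro he
      rw [he, Subgroup.card_bot] at h1
      exact lt_irrefl _ h1
    obtain ⟨⟨x, hx⟩, hx1⟩ := Subgroup.ne_bot_iff_exists_ne_one.1 h2
    rw [mem_J] at hx
    exact ⟨x, hx.1, fun he => hx1 (Subtype.ext he), (le_sup_left : K ≤ K ⊔ N) hx.2⟩
  obtain ⟨x, hxP, hx1, ⟨n0, hn0, hn0K⟩, hxS⟩ := stepC hN hN' hNN' hNK1 hab hHx
  have hxK2 : x ∈ K ⊔ N' := by
    have h1 : n0 ∈ K ⊔ N' := (le_sup_right : N' ≤ K ⊔ N') hn0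
    have h2 := hK12 hn0K
    have e : x = n0 * (n0⁻¹ * x * n0) * n0⁻¹ := by group
    rw [e]
    exact Subgroup.mul_mem _ (Subgroup.mul_mem _ h1 h2) (Subgroup.inv_mem _ h1)
  have hinv1 : Inv N' (N' ⊓ (K ⊔ N)) := by
    intro n hn m hm
    have h1 := hNM0 (hab n hn m hm.1)
    have e : n * m * n⁻¹ = (n * m * n⁻¹ * m⁻¹) * m := by group
    rw [e]
    exact Subgroup.mul_mem _ h1 hm
  have hinv2 : Inv K (N' ⊓ (K ⊔ N)) :=
    (Inv.of_normal _ hN').inf ((Inv.self (K ⊔ N)).mono le_sup_left)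
  have hinv : Inv (K ⊔ N') (N' ⊓ (K ⊔ N)) := by
    intro g hg m hm
    obtain ⟨a, ha, n, hn, rfl⟩ := Subgroup.mem_sup_of_normal_right.1 hg
    have e : a * n * m * (a * n)⁻¹ = a * (n * m * n⁻¹) * a⁻¹ := by group
    rw [e]
    exact hinv2 a ha _ (hinv1 n hn m hm)
  have hd := stepD hZ p l c0 b hBd hB hX P hP hcard r hr (K ⊔ N') N' (N' ⊓ (K ⊔ N)) hN' hM0 hinv
    (fun x hx y hy => hNM0 (hab x hx y hy)) (fun x hx => hNM0 (hrp x hx)) x hxP hx1 hxK2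
    (Sm_mono_c hxS hcard)
  have h1 := (LM.ext inferInstance hd hC').normalCore
  set Δ := (CS N' (N' ⊓ (K ⊔ N)) hN' hM0 ⊓ (K ⊔ N').normalCore).normalCore with hΔ
  have hΔle : Δ ≤ CS N' (N' ⊓ (K ⊔ N)) hN' hM0 ⊓ (K ⊔ N').normalCore := Subgroup.normalCore_le _
  have hN'Δ : N' ≤ Δ := by
    apply Subgroup.normal_le_normalCore.2
    refine le_inf ?_ ?_
    · intro n hn m hm
      exact hNM0 (hab n hn m hm)
    · apply Subgroup.normal_le_normalCore.2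
      exact le_sup_right
  have hΔK : Δ ≤ (K ⊔ N) ⊔ N' := by
    refine (hΔle.trans inf_le_right).trans ((Subgroup.normalCore_le _).trans ?_)
    exact sup_le_sup_right le_sup_left N'
  have hΔn : Δ.Normal := Subgroup.normalCore_normal _
  have hcomm : ∀ u ∈ Δ, ∀ n ∈ N', u * n * u⁻¹ * n⁻¹ ∈ (K ⊔ N).normalCore := by
    intro u hu n hn g
    have h2 := (hΔle (hΔn.conj_mem u hu g)).1 (g * n * g⁻¹) (hN'.conj_mem n hn g)
    have e : g * (u * n * u⁻¹ * n⁻¹) * g⁻¹ =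
        g * u * g⁻¹ * (g * n * g⁻¹) * (g * u * g⁻¹)⁻¹ * (g * n * g⁻¹)⁻¹ := by group
    rw [e]
    exact h2.2
  have he := stepE (K1 := K ⊔ N) hN' hN'Δ hΔK hcomm
  have h2 : LM p 1 ((K ⊔ N).subgroupOf Δ) := by
    apply LM.of_comm
    intro x y
    exact he x x.2 y y.2
  have h3 := (LM.ext hΔn h2 h1).mono inf_le_left
  exact h3.normalCore

theorem c1 : S_Z → S_B → S_C1 := by
  intro hZ hB p l c0 hp hBd
  obtain ⟨b, hb⟩ := hB p (p ^ (l + 1))
  have key : ∀ i : ℕ, ∃ d : ℕ, ∀ s : ℕ, 1 ≤ s → s + i = l + 2 →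
      ∀ (X : Type) [Group X] [Finite X], Group.IsSolvable X →
      ∀ P : Subgroup X, UQ p P → Nat.card P ≤ p ^ (l + 1) →
      ∀ K : Subgroup X, (∀ g, p ^ s ≤ Nat.card (J P K g)) → LM p d K := by
    intro i
    induction i with
    | zero =>
      refine ⟨0, ?_⟩
      intro s hs hsi X _ _ hX P hP hcard K H
      exfalso
      have h1 : Nat.card (J P K 1) ≤ Nat.card P := Subgroup.card_le_of_le inf_le_left
      have h2 : p ^ (l + 1) < p ^ s := Nat.pow_lt_pow_right hp.out.one_lt (by omega)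
      have h3 := H 1
      omega
    | succ i ih =>
      obtain ⟨ds, hds⟩ := ih
      refine ⟨p ^ (l + 1) * (c0 + 1) + (1 + ((b + p ^ (l + 1) * (c0 + 1)) + ds)), ?_⟩
      · intro s hs hsi X _ _ hX P hP hcard K H
        exact step hZ p l c0 b ds s hBd hb hs X hX P hP hcard
          (fun K' hK' => hds (s + 1) (by omega) (by omega) X hX P hP hcard K' hK') K H
  obtain ⟨d, hd⟩ := key (l + 1)
  refine ⟨d, ?_⟩
  intro X _ _ hX P K hP hcard H
  refine hd 1 le_rfl (by omega) X hX P hP hcard K ?_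
  intro g
  obtain ⟨x, hxP, hx1, hxK⟩ := H g
  have hle : J P K g ≤ P := inf_le_left
  obtain ⟨n, hn⟩ := (hP.1.to_le hle).exists_card_eq
  rw [hn]
  apply Nat.pow_le_pow_right hp.out.pos
  rcases Nat.eq_zero_or_pos n with rfl | h0
  · exfalso
    rw [pow_zero, Subgroup.card_eq_one] at hn
    have h1 : x ∈ J P K g := mem_J.2 ⟨hxP, hxK⟩
    rw [hn, Subgroup.mem_bot] at h1
    exact hx1 h1
  · exact h0

end Pool.Agent.Helper699_Rae
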